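import Pool.Agent.Run7.h56.JP.JMd1
import Pool.Agent.Run7.h886.TG.MODEL
import Pool.Agent.Run7.h784.JP.Stm

/-!
# Plane models of the joint curves of factorisations

Project JPL (helper784), piece JMODEL, helper56, after Run7/h886/TG/{MdC,MODEL}.lean.
-/

set_option autoImplicit false
set_option linter.all false

open Polynomial
open scoped Classical

namespace Run7.h56.JP

open Run7.h886.TG
open Run7.h784.TG (FacR mdl Fm Full big IsMd)
open Run7.h875.TS (IsPC)
open Run7.h784.JP (JF JFull JMd P_JMODEL)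

section partC

variable {k M ι : Type} [Fintype ι] [Field k] [Field M] [Algebra k[X] M] {n l : ι → ℕ}
  {θ : ∀ i, Fin (n i) → M} {f : ι → k[X][X]} {c : ∀ i, Fin (l i) → ℕ} {H : k[X][X]} {D : k[X]}
  {A : ∀ i, Fin (l i) → ℕ → k[X][X]} {e : ∀ i, Fin (l i) → ℕ → k[X]}
  {y : (∀ i, Fin (n i) → Fin (l i)) → M}

/-- The product identity modulo `H`. -/
theorem congrJ1 (hR : Function.Injective (algebraMap k[X] M))
    (hf : ∀ i, (f i).map (algebraMap k[X] M) = ∏ j, (X - C (θ i j)))
    (hHm : H.Monic) (hy : Set.InjOn y (JCol n c : Set (∀ i, Fin (n i) → Fin (l i))))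
    (hH : H.map (algebraMap k[X] M) = ∏ κ ∈ JCol n c, (X - C (y κ)))
    (hA : ∀ κ ∈ JCol n c, ∀ i a j,
      aeval (y κ) (A i a j) = algebraMap k[X] M D * (ap (θ i) (κ i) a).coeff j) (i : ι) (m : ℕ) :
    H ∣ ((∏ a, (C (C D) * X ^ (c i a) + ∑ j ∈ Finset.range (c i a), C (A i a j) * X ^ j)) -
      C (C (D ^ l i)) * (f i).map C : k[X][X][X]).coeff m := by
  refine dvd_of hR hHm hy hH fun κ hκ => ?_
  set ψ : k[X][X] →+* M := (aeval (y κ) : k[X][X] →ₐ[k[X]] M).toRingHom with hψ
  have hψ1 : ∀ p, ψ p = aeval (y κ) p := fun p => rfl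
  have hψC : ∀ r, ψ (C r) = algebraMap k[X] M r := fun r => by rw [hψ1, aeval_C]
  rw [← hψ1, ← coeff_map]
  have h1 : ∀ a, ((C (C D) * X ^ (c i a) + ∑ j ∈ Finset.range (c i a), C (A i a j) * X ^ j :
      k[X][X][X])).map ψ = C (algebraMap k[X] M D) * ap (θ i) (κ i) a := by
    intro a
    rw [ap_sum (mem_JCol.1 hκ i) a, Polynomial.map_add, Polynomial.map_mul, map_C,
      Polynomial.map_pow, map_X, Polynomial.map_sum, hψC, mul_add, Finset.mul_sum]
    congr 1
    refine Finset.sum_congr rfl fun j _ => ?_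
    rw [Polynomial.map_mul, map_C, Polynomial.map_pow, map_X, hψ1, hA κ hκ, C_mul, mul_assoc]
  rw [Polynomial.map_sub, Polynomial.map_prod, Finset.prod_congr rfl fun a _ => h1 a,
    Polynomial.map_mul, map_C, Polynomial.map_map, hψC, Finset.prod_mul_distrib, ap_prod, ← hf i]
  have h2 : ψ.comp C = algebraMap k[X] M := RingHom.ext fun r => hψC r
  rw [h2, Finset.prod_const, Finset.card_univ, Fintype.card_fin, map_pow, C_pow, sub_self,
    coeff_zero]

/-- The primitive element modulo `H`. -/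
theorem congrJ2 (hR : Function.Injective (algebraMap k[X] M))
    (hHm : H.Monic) (hy : Set.InjOn y (JCol n c : Set (∀ i, Fin (n i) → Fin (l i))))
    (hH : H.map (algebraMap k[X] M) = ∏ κ ∈ JCol n c, (X - C (y κ)))
    (hye : ∀ κ, y κ = ∑ i, ∑ a, ∑ j ∈ Finset.range (c i a),
      algebraMap k[X] M (e i a j) * (ap (θ i) (κ i) a).coeff j)
    (hA : ∀ κ ∈ JCol n c, ∀ i a j,
      aeval (y κ) (A i a j) = algebraMap k[X] M D * (ap (θ i) (κ i) a).coeff j) :
    H ∣ C D * X - ∑ i, ∑ a, ∑ j ∈ Finset.range (c i a), C (e i a j) * A i a j := by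
  refine dvd_of hR hHm hy hH fun κ hκ => ?_
  rw [map_sub, map_mul, aeval_C, aeval_X, map_sum, sub_eq_zero]
  conv_lhs => rw [hye κ]
  rw [Finset.mul_sum]
  refine Finset.sum_congr rfl fun i _ => ?_
  rw [Finset.mul_sum, map_sum]
  refine Finset.sum_congr rfl fun a _ => ?_
  rw [Finset.mul_sum, map_sum]
  refine Finset.sum_congr rfl fun j _ => ?_
  rw [map_mul, aeval_C, hA κ hκ]
  ring

/-- The value of `y`. -/
theorem val_yJ (h2 : H ∣ C D * X - ∑ i, ∑ a, ∑ j ∈ Finset.range (c i a), C (e i a j) * A i a j)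
    {W : Type} [Field W] (φ : k[X] →+* W) (hD : φ D ≠ 0) (y₀ : W) (hy : eval₂ φ y₀ H = 0) :
    y₀ = ∑ i, ∑ a, ∑ j ∈ Finset.range (c i a),
      φ (e i a j) * (mdl φ (c i) D (A i) y₀ a).coeff j := by
  obtain ⟨q, hq⟩ := h2
  have h3 := congrArg (eval₂ φ y₀) hq
  rw [eval₂_mul, hy, zero_mul, eval₂_sub, eval₂_mul, eval₂_C, eval₂_X, eval₂_finset_sum,
    sub_eq_zero] at h3
  have h4 : φ D * ∑ i, ∑ a, ∑ j ∈ Finset.range (c i a),
      φ (e i a j) * (mdl φ (c i) D (A i) y₀ a).coeff j =
      ∑ i, eval₂ φ y₀ (∑ a, ∑ j ∈ Finset.range (c i a), C (e i a j) * A i a j) := by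
    rw [Finset.mul_sum]
    refine Finset.sum_congr rfl fun i _ => ?_
    rw [Finset.mul_sum, eval₂_finset_sum]
    refine Finset.sum_congr rfl fun a _ => ?_
    rw [Finset.mul_sum, eval₂_finset_sum]
    refine Finset.sum_congr rfl fun j hj => ?_
    rw [eval₂_mul, eval₂_C, coeff_mdl _ _ _ _ _ _ _ (Finset.mem_range.1 hj)]
    field_simp
  rw [← h4] at h3
  exact mul_left_cancel₀ hD h3

theorem bijJ (hm : ∀ i, (f i).Monic) (hn : ∀ i, (f i).natDegree = n i)
    (hHm : H.Monic) (hHd : H.natDegree = (JCol n c).card)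
    (hdisc : ∃ A B : k[X][X], A * H + B * derivative H = C D)
    {E : k[X]} (hED : E ∣ D)
    (hE : ∀ i, ∃ A B : k[X][X], A * f i + B * derivative (f i) = C E)
    (h1 : ∀ i m, H ∣ ((∏ a, (C (C D) * X ^ (c i a) + ∑ j ∈ Finset.range (c i a),
      C (A i a j) * X ^ j)) - C (C (D ^ l i)) * (f i).map C : k[X][X][X]).coeff m)
    (h2 : H ∣ C D * X - ∑ i, ∑ a, ∑ j ∈ Finset.range (c i a), C (e i a j) * A i a j)
    (W : Type) [Field W] (φ : k[X] →+* W) (hD : φ D ≠ 0) :
    Set.BijOn (fun (y : W) (i : ι) => mdl φ (c i) D (A i) y) {y | eval₂ φ y H = 0}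
      {a : ∀ i, Fin (l i) → W[X] | ∀ i, a i ∈ FacR φ (f i) (c i)} := by
  have sepW : ∀ {W : Type} [Field W] (φ : k[X] →+* W) {p : k[X][X]} {d : k[X]}
      (hd : φ d ≠ 0) (h : ∃ A B : k[X][X], A * p + B * derivative p = C d), (p.map φ).Separable := by
    intro W _ φ p d hd h
    obtain ⟨a, b, hab⟩ := h
    refine ⟨C (φ d)⁻¹ * a.map φ, C (φ d)⁻¹ * b.map φ, ?_⟩
    have h3 := congrArg (Polynomial.map φ) hab
    rw [Polynomial.map_add, Polynomial.map_mul, Polynomial.map_mul, map_C, ← derivative_map] at h3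
    have h4 : C (φ d)⁻¹ * C (φ d) = (1 : W[X]) := by
      rw [← C_mul, inv_mul_cancel₀ hd, C_1]
    linear_combination C (φ d)⁻¹ * h3 + h4
  have hinj : ∀ {W : Type} [Field W] (φ : k[X] →+* W) (hD : φ D ≠ 0),
      Set.InjOn (fun (y : W) (i : ι) => mdl φ (c i) D (A i) y) {y | eval₂ φ y H = 0} := by
    intro W _ φ hD a ha b hb hab
    rw [val_yJ h2 φ hD a ha, val_yJ h2 φ hD b hb]
    refine Finset.sum_congr rfl fun i _ => ?_
    have h3 : mdl φ (c i) D (A i) a = mdl φ (c i) D (A i) b := congrFun hab i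
    rw [h3]
  refine ⟨fun y₀ hy₀ i => maps (h1 i) φ hD y₀ hy₀, hinj φ hD, ?_⟩
  -- surjectivity
  intro a ha
  set W' := AlgebraicClosure W with hW'
  set φ' : k[X] →+* W' := (algebraMap W W').comp φ with hφ'
  have hD' : φ' D ≠ 0 := fun h => hD ((algebraMap W W').injective (h.trans (map_zero _).symm))
  have hE' : φ' E ≠ 0 := by
    obtain ⟨q, hq⟩ := hED
    intro h
    apply hD'
    rw [hq, map_mul, h, zero_mul]
  have hsurj : Set.SurjOn (fun (y : W') (i : ι) => mdl φ' (c i) D (A i) y)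
      {y | eval₂ φ' y H = 0} {a : ∀ i, Fin (l i) → W'[X] | ∀ i, a i ∈ FacR φ' (f i) (c i)} := by
    have hex : ∀ i, ∃ θ : Fin (n i) → W', Function.Injective θ ∧
        (f i).map φ' = ∏ j, (X - C (θ j)) := fun i =>
      exists_idx ((f i).map φ') ((hm i).map _) (IsAlgClosed.splits _)
        (sepW φ' hE' (hE i)) (n := n i) (by rw [(hm i).natDegree_map, hn])
    choose θ' hθ' hf' using hex
    have h3 : {a : ∀ i, Fin (l i) → W'[X] | ∀ i, a i ∈ FacR φ' (f i) (c i)} ⊆
        (fun (κ : ∀ i, Fin (n i) → Fin (l i)) (i : ι) => ap (θ' i) (κ i)) ''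
          (JCol n c : Set (∀ i, Fin (n i) → Fin (l i))) := by
      intro a ha
      have h4 : ∀ i, ∃ κ : Fin (n i) → Fin (l i), κ ∈ Col (n i) (c i) ∧ ap (θ' i) κ = a i := by
        intro i
        obtain ⟨κ, hκ, hκ'⟩ := fac_sub φ' (f i) (hθ' i) (hf' i) (c i) (ha i)
        exact ⟨κ, hκ, hκ'⟩
      choose κ hκ hκ' using h4
      refine ⟨κ, ?_, funext hκ'⟩
      rw [Finset.mem_coe, mem_JCol]
      exact hκ
    have hfin : ((fun (κ : ∀ i, Fin (n i) → Fin (l i)) (i : ι) => ap (θ' i) (κ i)) ''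
        (JCol n c : Set (∀ i, Fin (n i) → Fin (l i)))).Finite := (Set.toFinite _).image _
    have h4 : ({a : ∀ i, Fin (l i) → W'[X] | ∀ i, a i ∈ FacR φ' (f i) (c i)}).ncard ≤
        (JCol n c).card := by
      refine (Set.ncard_le_ncard h3 hfin).trans ((Set.ncard_image_le (Set.toFinite _)).trans ?_)
      rw [Set.ncard_coe_finset]
    have h5 : {y : W' | eval₂ φ' y H = 0} = ((H.map φ').roots.toFinset : Set W') := by
      ext x
      rw [Finset.mem_coe, Multiset.mem_toFinset, mem_roots (hHm.map φ').ne_zero, IsRoot, eval_map]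
      rfl
    have h6 : {y : W' | eval₂ φ' y H = 0}.ncard = (JCol n c).card := by
      rw [h5, Set.ncard_coe_finset, Multiset.toFinset_card_of_nodup
        (nodup_roots (sepW φ' hD' hdisc)),
        ← (IsAlgClosed.splits (H.map φ')).natDegree_eq_card_roots, hHm.natDegree_map, hHd]
    have h7 : (fun (y : W') (i : ι) => mdl φ' (c i) D (A i) y) '' {y | eval₂ φ' y H = 0} =
        {a : ∀ i, Fin (l i) → W'[X] | ∀ i, a i ∈ FacR φ' (f i) (c i)} := by
      refine Set.eq_of_subset_of_ncard_le ?_ ?_ (hfin.subset h3)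
      · rintro _ ⟨y₀, hy₀, rfl⟩
        exact fun i => maps (h1 i) φ' hD' y₀ hy₀
      · rw [Set.ncard_image_of_injOn (hinj φ' hD'), h6]
        exact h4
    rw [Set.SurjOn, h7]
  have ha' : (fun i b => (a i b).map (algebraMap W W')) ∈
      {a : ∀ i, Fin (l i) → W'[X] | ∀ i, a i ∈ FacR φ' (f i) (c i)} := by
    intro i
    obtain ⟨h3, h4⟩ := ha i
    refine ⟨fun b => ⟨(h3 b).1.map _, by rw [(h3 b).1.natDegree_map, (h3 b).2]⟩, ?_⟩
    rw [← Polynomial.map_prod, h4, Polynomial.map_map]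
  obtain ⟨y', hy', hya⟩ := hsurj ha'
  have hya' : ∀ i b, mdl φ' (c i) D (A i) y' b = (a i b).map (algebraMap W W') :=
    fun i b => congrFun (congrFun hya i) b
  have h3 := val_yJ h2 φ' hD' y' hy'
  simp only [hya'] at h3
  set y₀ : W := ∑ i, ∑ b, ∑ j ∈ Finset.range (c i b), φ (e i b j) * (a i b).coeff j with hy₀
  have h4 : algebraMap W W' y₀ = y' := by
    rw [h3, hy₀, map_sum]
    refine Finset.sum_congr rfl fun i _ => ?_
    rw [map_sum]
    refine Finset.sum_congr rfl fun b _ => ?_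
    rw [map_sum]
    refine Finset.sum_congr rfl fun j _ => ?_
    rw [map_mul, coeff_map]
    rfl
  have hev : ∀ p : k[X][X], algebraMap W W' (eval₂ φ y₀ p) = eval₂ φ' y' p := by
    intro p
    rw [hom_eval₂, h4]
  refine ⟨y₀, ?_, ?_⟩
  · show eval₂ φ y₀ H = 0
    apply (algebraMap W W').injective
    rw [hev, map_zero]
    exact hy'
  · funext i b
    apply Polynomial.map_injective (algebraMap W W') (algebraMap W W').injective
    rw [← hya' i b]
    unfold mdl
    rw [Polynomial.map_add, Polynomial.map_pow, map_X, Polynomial.map_sum]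
    congr 1
    refine Finset.sum_congr rfl fun j _ => ?_
    rw [Polynomial.map_mul, map_C, Polynomial.map_pow, map_X, map_div₀, hev]
    rfl

end partC

theorem T_JMODEL : P_JMODEL := by
  intro k _ _ ι _ g N r f hF hFull l c hc hsum
  set n : ι → ℕ := fun i => 2 * g i + 1 with hn
  set k' := AlgebraicClosure k with hk'
  set K := FractionRing k[X] with hK
  set K' := FractionRing k'[X] with hK'
  set M := AlgebraicClosure K' with hM
  set ψ : k[X] →+* K' := (algebraMap k'[X] K').comp (mapRingHom (algebraMap k k')) with hψ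
  have hψinj : Function.Injective ψ := by
    intro x y h
    apply Polynomial.map_injective (algebraMap k k') (algebraMap k k').injective
    exact IsFractionRing.injective k'[X] K' h
  letI alg : Algebra k[X] M := ((algebraMap K' M).comp ψ).toAlgebra
  have hcomp : ∀ p : k[X], algebraMap k[X] M p =
      algebraMap K' M (algebraMap k'[X] K' (p.map (algebraMap k k'))) := fun p => rfl
  have hcomp2 : (algebraMap K' M).comp ψ = algebraMap k[X] M := rfl
  have hinj : Function.Injective (algebraMap k[X] M) := by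
    intro x y h
    rw [hcomp, hcomp] at h
    exact hψinj ((algebraMap K' M).injective h)
  haveI : FaithfulSMul k[X] M := (faithfulSMul_iff_algebraMap_injective _ _).2 hinj
  letI alg2 : Algebra K M := FractionRing.liftAlgebra k[X] M
  haveI : IsScalarTower k[X] K M := FractionRing.isScalarTower_liftAlgebra k[X] M
  haveI : Algebra.IsAlgebraic K M := alg_big (k := k) (k' := k') (K := K) (K' := K') hcomp
  haveI : IsAlgClosure K M := ⟨inferInstance, inferInstance⟩
  haveI : Normal K M := IsAlgClosure.normal K M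
  have hfm : ∀ i, (f i).Monic := fun i => (hF.fm i).fam.ht.mon
  have hfd : ∀ i, (f i).natDegree = n i := fun i => (hF.fm i).fam.ht.deg
  have hfs : ∀ i, ((f i).map (algebraMap k[X] K)).Separable := fun i =>
    ((Pool.Agent.N134.PJ.irk (g i) k K (f i) (N i) (r i) 1 (hF.fm i).fam.ht (hF.fm i).gr
      (hF.fm i).fam.inf one_ne_zero).2.2 (hF.fm i).fam.sq.ne_zero).1
  have hfsM : ∀ i, ((f i).map (algebraMap k[X] M)).Separable := by
    intro i
    rw [IsScalarTower.algebraMap_eq k[X] K M, ← Polynomial.map_map]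
    exact (hfs i).map
  have hexθ : ∀ i, ∃ θ : Fin (n i) → M, Function.Injective θ ∧
      (f i).map (algebraMap k[X] M) = ∏ j, (X - C (θ j)) := fun i =>
    exists_idx ((f i).map (algebraMap k[X] M)) ((hfm i).map _)
      (IsAlgClosed.splits _) (hfsM i) (n := n i) (by rw [(hfm i).natDegree_map, hfd])
  choose θ hθ hfθ using hexθ
  have hKR : Function.Injective (algebraMap k[X] K) := IsFractionRing.injective _ _
  have hexE : ∀ i, ∃ E : k[X], E ≠ 0 ∧
      ∃ A B : k[X][X], A * f i + B * derivative (f i) = C E := by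
    intro i
    obtain ⟨A₀, B₀, hAB⟩ := hfs i
    obtain ⟨D, hD, hcl⟩ := Run7.h875.TS.clear_den (R := k[X]) {A₀, B₀}
    obtain ⟨A₁, hA₁⟩ := hcl A₀ (by simp)
    obtain ⟨B₁, hB₁⟩ := hcl B₀ (by simp)
    refine ⟨D, hD, A₁, B₁, ?_⟩
    apply Polynomial.map_injective (algebraMap k[X] K) hKR
    rw [Polynomial.map_add, Polynomial.map_mul, Polynomial.map_mul, hA₁, hB₁, map_C, ← derivative_map]
    linear_combination C (algebraMap k[X] K D) * hAB
  choose E₀ hE₀ hE₀id using hexE
  set E : k[X] := ∏ i, E₀ i with hEdef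
  have hE : E ≠ 0 := Finset.prod_ne_zero_iff.2 fun i _ => hE₀ i
  have hEid : ∀ i, ∃ A B : k[X][X], A * f i + B * derivative (f i) = C E := by
    intro i
    obtain ⟨A, B, hAB⟩ := hE₀id i
    obtain ⟨q, hq⟩ : E₀ i ∣ E := Finset.dvd_prod_of_mem E₀ (Finset.mem_univ i)
    refine ⟨C q * A, C q * B, ?_⟩
    rw [hq, C_mul]
    linear_combination C q * hAB
  obtain ⟨H, D, A, e, y, hHm, hD, hED, hdisc, hy, hH, hye, hA⟩ :=
    partJ (K := K) hinj hθ f hfm hfs hfθ c E hE
  have hHd : H.natDegree = (JCol n c).card := by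
    rw [← hHm.natDegree_map (algebraMap k[X] M), hH,
      natDegree_prod_of_monic _ _ fun _ _ => monic_X_sub_C _]
    simp
  have hexκ : ∀ i, ∃ κ, κ ∈ Col (n i) (c i) := fun i => Col_nonempty (c := c i) (n := n i) (hsum i)
  choose κ₀' hκ₀' using hexκ
  set κ₀ : ∀ i, Fin (n i) → Fin (l i) := κ₀' with hκ₀def
  have hκ₀ : κ₀ ∈ JCol n c := mem_JCol.2 hκ₀'
  have hpos : 0 < (JCol n c).card := Finset.card_pos.2 ⟨κ₀, hκ₀⟩
  have hr : ∀ i j, eval₂ (big k k' K' M) (θ i j) (f i) = 0 := by
    intro i j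
    show eval₂ (algebraMap k[X] M) (θ i j) (f i) = 0
    rw [← eval_map, hfθ, eval_prod]
    exact Finset.prod_eq_zero (Finset.mem_univ j) (by simp)
  have hbij : ∀ i, Function.Bijective (fun j : Fin (n i) =>
      (⟨θ i j, hr i j⟩ : {x : M // eval₂ (big k k' K' M) x (f i) = 0})) := by
    intro i
    refine ⟨fun a b h => hθ i (congrArg Subtype.val h), ?_⟩
    rintro ⟨x, hx⟩
    have hx' : ((f i).map (algebraMap k[X] M)).eval x = 0 := by
      rw [eval_map]
      exact hx
    rw [hfθ, eval_prod, Finset.prod_eq_zero_iff] at hx'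
    obtain ⟨j, -, hj⟩ := hx'
    rw [eval_sub, eval_X, eval_C, sub_eq_zero] at hj
    exact ⟨j, Subtype.ext hj.symm⟩
  have hirr : Irreducible (H.map (mapRingHom (algebraMap k k'))) := by
    have hHψ : eval₂ (algebraMap K' M) (y κ₀) (H.map ψ) = 0 := by
      rw [eval₂_map, hcomp2, ← eval_map, hH, eval_prod]
      exact Finset.prod_eq_zero hκ₀ (by simp)
    have hyint : IsIntegral K' (y κ₀) := ⟨H.map ψ, hHm.map ψ, hHψ⟩
    -- the degree of the minimal polynomial
    have hge : (JCol n c).card ≤ (minpoly K' (y κ₀)).natDegree := by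
      have h1 : (JCol n c).image y ⊆
          ((minpoly K' (y κ₀)).map (algebraMap K' M)).roots.toFinset := by
        intro z hz
        obtain ⟨κ, hκ, rfl⟩ := Finset.mem_image.1 hz
        have hexσ : ∀ i, ∃ σ : Equiv.Perm (Fin (n i)), κ i = κ₀ i ∘ σ.symm := fun i =>
          conj_col (mem_JCol.1 hκ₀ i) (mem_JCol.1 hκ i)
        choose σ hσ using hexσ
        set ε : ∀ i, Fin (n i) ≃ {x : M // eval₂ (big k k' K' M) x (f i) = 0} :=
          fun i => Equiv.ofBijective _ (hbij i) with hε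
        obtain ⟨τ, hτ⟩ := hFull k' K' M (fun i => (ε i).symm.trans ((σ i).trans (ε i)))
        have hτθ : ∀ i j, τ (θ i j) = θ i (σ i j) := by
          intro i j
          have h2 := hτ i (ε i j)
          rw [Equiv.trans_apply, Equiv.symm_apply_apply, Equiv.trans_apply] at h2
          exact h2
        have hτR : ∀ r : k[X], τ (algebraMap k[X] M r) = algebraMap k[X] M r := by
          intro r
          rw [hcomp]
          exact τ.commutes _
        have hτy : τ (y κ₀) = y κ := by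
          rw [hye κ₀, hye κ, map_sum]
          refine Finset.sum_congr rfl fun i _ => ?_
          rw [map_sum]
          refine Finset.sum_congr rfl fun a _ => ?_
          rw [map_sum]
          refine Finset.sum_congr rfl fun j _ => ?_
          rw [map_mul, hτR, hσ i, ← ap_map (τ : M →+* M) (σ i) (hτθ i) a, coeff_map]
          rfl
        rw [Multiset.mem_toFinset, mem_roots_map (minpoly.ne_zero hyint), ← hτy]
        have h3 := congrArg τ (minpoly.aeval K' (y κ₀))
        rw [map_zero, ← aeval_algHom_apply τ] at h3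
        exact h3
      have h2 := Finset.card_le_card h1
      rw [Finset.card_image_of_injOn hy] at h2
      refine h2.trans ((Multiset.toFinset_card_le _).trans ((card_roots' _).trans ?_))
      exact natDegree_map_le
    have heq : H.map ψ = minpoly K' (y κ₀) := by
      refine eq_of_monic_of_dvd_of_natDegree_le (minpoly.monic hyint) (hHm.map ψ)
        (minpoly.dvd _ _ hHψ) ?_
      rw [hHm.natDegree_map, hHd]
      exact hge
    rw [(hHm.map _).irreducible_iff_irreducible_map_fraction_map (K := K'), Polynomial.map_map]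
    show Irreducible (H.map ψ)
    rw [heq]
    exact minpoly.irreducible hyint
  have hc1 := congrJ1 hinj hfθ hHm hy hH hA
  have hc2 := congrJ2 hinj hHm hy hH hye hA
  refine ⟨H, D, A, ⟨hHm, by rw [hHd]; exact hpos, hD, hdisc, ?_⟩, ?_⟩
  · intro k'' _ _ _ _
    exact Run7.h875.TS.irr_all k' hirr k''
  · intro W _ φ hφ
    exact bijJ hfm hfd hHm hHd hdisc hED hEid hc1 hc2 W φ hφ

end Run7.h56.JP
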