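import Pool.Agent.Run7.h886.TG.MdC

/-!
# Plane models of the joint curves of factorisations: the construction

Project JPL (helper784), piece JMODEL, helper56, after Run7/h886/TG/{MdA,MdB}.lean.
-/

set_option autoImplicit false
set_option linter.all false

open Polynomial
open scoped Classical

namespace Run7.h56.JP

open Run7.h886.TG

/-- The families of colourings. -/
noncomputable def JCol {ι : Type} [Fintype ι] (n : ι → ℕ) {l : ι → ℕ} (c : ∀ i, Fin (l i) → ℕ) :
    Finset (∀ i, Fin (n i) → Fin (l i)) :=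
  Fintype.piFinset fun i => Col (n i) (c i)

theorem mem_JCol {ι : Type} [Fintype ι] {n : ι → ℕ} {l : ι → ℕ} {c : ∀ i, Fin (l i) → ℕ}
    {κ : ∀ i, Fin (n i) → Fin (l i)} : κ ∈ JCol n c ↔ ∀ i, κ i ∈ Col (n i) (c i) := by
  unfold JCol
  rw [Fintype.mem_piFinset]

/-- Separating weights. -/
theorem exists_wtJ {R M ι : Type} [CommRing R] [IsDomain R] [Infinite R] [Field M] [Algebra R M]
    [Fintype ι] (hR : Function.Injective (algebraMap R M)) {n l : ι → ℕ} {θ : ∀ i, Fin (n i) → M}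
    (hθ : ∀ i, Function.Injective (θ i)) (c : ∀ i, Fin (l i) → ℕ) :
    ∃ e : ∀ i, Fin (l i) → ℕ → R, Set.InjOn (fun κ : ∀ i, Fin (n i) → Fin (l i) =>
      ∑ i, ∑ a, ∑ j ∈ Finset.range (c i a),
        algebraMap R M (e i a j) * (ap (θ i) (κ i) a).coeff j)
      (JCol n c : Set (∀ i, Fin (n i) → Fin (l i))) := by
  set J : Finset (Σ i : ι, Σ _ : Fin (l i), ℕ) :=
    Finset.univ.sigma fun i => Finset.univ.sigma fun a => Finset.range (c i a) with hJ
  set V : Set ((Σ i : ι, Σ _ : Fin (l i), ℕ) → M) :=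
    (fun p : (∀ i, Fin (n i) → Fin (l i)) × (∀ i, Fin (n i) → Fin (l i)) =>
      fun x : (Σ i : ι, Σ _ : Fin (l i), ℕ) =>
      (ap (θ x.1) (p.1 x.1) x.2.1).coeff x.2.2 - (ap (θ x.1) (p.2 x.1) x.2.1).coeff x.2.2) ''
      {p | p.1 ∈ JCol n c ∧ p.2 ∈ JCol n c ∧ p.1 ≠ p.2} with hV
  obtain ⟨μ, hμ⟩ := Run7.h875.TS.exists_mu (R := R) (Ω := M) hR J
    (fun x => Nat.pair (Fintype.equivFin ι x.1 : ℕ) (Nat.pair (x.2.1 : ℕ) x.2.2)) (by
      rintro ⟨i, a, j⟩ - ⟨i', a', j'⟩ - h
      obtain ⟨h1, h2⟩ := Nat.pair_eq_pair.1 h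
      obtain ⟨h3, h4⟩ := Nat.pair_eq_pair.1 h2
      simp only at h1 h3 h4
      obtain rfl := (Fintype.equivFin ι).injective (Fin.ext h1)
      obtain rfl := Fin.ext h3
      rw [h4]) V ((Set.toFinite _).image _) (by
      rintro _ ⟨⟨κ, κ'⟩, ⟨h1, h2, h3⟩, rfl⟩
      by_contra hcon
      push Not at hcon
      apply h3
      simp only at h1 h2
      funext i
      apply ap_inj (hθ i)
      intro a
      rw [ap_sum (mem_JCol.1 h1 i), ap_sum (mem_JCol.1 h2 i)]
      congr 1
      refine Finset.sum_congr rfl fun j hj => ?_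
      have h4 := hcon ⟨i, a, j⟩ (by
        rw [hJ, Finset.mem_sigma]
        refine ⟨Finset.mem_univ _, ?_⟩
        rw [Finset.mem_sigma]
        exact ⟨Finset.mem_univ _, hj⟩)
      simp only at h4
      rw [sub_eq_zero.1 h4])
  refine ⟨fun i a j => μ ^ Nat.pair (Fintype.equivFin ι i : ℕ) (Nat.pair (a : ℕ) j), ?_⟩
  intro κ hκ κ' hκ' h
  by_contra hne
  refine hμ _ ⟨(κ, κ'), ⟨hκ, hκ', hne⟩, rfl⟩ ?_
  rw [hJ, Finset.sum_sigma]
  have h5 : ∀ i : ι, ∀ F : (Σ _ : Fin (l i), ℕ) → M,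
      ∑ x ∈ (Finset.univ : Finset (Fin (l i))).sigma (fun a => Finset.range (c i a)), F x =
        ∑ a, ∑ j ∈ Finset.range (c i a), F ⟨a, j⟩ := fun i F => Finset.sum_sigma _ _ _
  simp only [h5]
  simp only [mul_sub]
  simp only [Finset.sum_sub_distrib]
  simp only at h
  rw [h, sub_self]

section partA

variable {R K M ι : Type} [CommRing R] [IsDomain R] [IsIntegrallyClosed R] [Infinite R] [Field K]
  [Algebra R K] [IsFractionRing R K] [Field M] [Algebra R M] [Algebra K M] [IsScalarTower R K M]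
  [Normal K M] [Fintype ι]

theorem partJ (hR : Function.Injective (algebraMap R M)) {n l : ι → ℕ} {θ : ∀ i, Fin (n i) → M}
    (hθ : ∀ i, Function.Injective (θ i)) (f : ι → R[X]) (hfm : ∀ i, (f i).Monic)
    (hsep : ∀ i, ((f i).map (algebraMap R K)).Separable)
    (hf : ∀ i, (f i).map (algebraMap R M) = ∏ j, (X - C (θ i j))) (c : ∀ i, Fin (l i) → ℕ) (E : R)
    (hE : E ≠ 0) :
    ∃ (H : R[X]) (D : R) (A : ∀ i, Fin (l i) → ℕ → R[X]) (e : ∀ i, Fin (l i) → ℕ → R)
      (y : (∀ i, Fin (n i) → Fin (l i)) → M),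
      H.Monic ∧ D ≠ 0 ∧ E ∣ D ∧ (∃ A B : R[X], A * H + B * derivative H = C D) ∧
      Set.InjOn y (JCol n c : Set (∀ i, Fin (n i) → Fin (l i))) ∧
      H.map (algebraMap R M) = ∏ κ ∈ JCol n c, (X - C (y κ)) ∧
      (∀ κ, y κ = ∑ i, ∑ a, ∑ j ∈ Finset.range (c i a),
        algebraMap R M (e i a j) * (ap (θ i) (κ i) a).coeff j) ∧
      ∀ κ ∈ JCol n c, ∀ i a j,
        aeval (y κ) (A i a j) = algebraMap R M D * (ap (θ i) (κ i) a).coeff j := by
  obtain ⟨e, he⟩ := exists_wtJ (R := R) hR hθ c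
  set y : (∀ i, Fin (n i) → Fin (l i)) → M := fun κ => ∑ i, ∑ a, ∑ j ∈ Finset.range (c i a),
      algebraMap R M (e i a j) * (ap (θ i) (κ i) a).coeff j with hy
  have hKR : Function.Injective (algebraMap R K) := IsFractionRing.injective _ _
  have hroot : ∀ i j, aeval (θ i j) (f i) = 0 := by
    intro i j
    rw [aeval_def, ← eval_map, hf, eval_prod]
    exact Finset.prod_eq_zero (Finset.mem_univ j) (by simp)
  have hT : ∀ i j, θ i j ∈ Tsub R K M := by
    intro i j
    rw [mem_Tsub]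
    refine ⟨⟨f i, hfm i, hroot i j⟩, ?_⟩
    refine Polynomial.Separable.of_dvd (hsep i) (minpoly.dvd K _ ?_)
    rw [aeval_map_algebraMap]
    exact hroot i j
  have hap : ∀ i (κ : Fin (n i) → Fin (l i)) a,
      ap (θ i) κ a ∈ liftsRing (Tsub R K M).subtype := by
    intro i κ a
    exact Subring.prod_mem _ fun j _ => sub_mem X_mem_lr (C_mem_lr (hT i j))
  have hyT : ∀ κ, y κ ∈ Tsub R K M := by
    intro κ
    exact Subring.sum_mem _ fun i _ => Subring.sum_mem _ fun a _ => Subring.sum_mem _ fun j _ =>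
      Subring.mul_mem _ (alg_mem_Tsub _) (coeff_mem_T (hap i (κ i) a) j)
  set P : Polynomial M := ∏ κ ∈ JCol n c, (X - C (y κ)) with hP
  set N : ∀ i, Fin (l i) → ℕ → Polynomial M := fun i a j => ∑ κ ∈ JCol n c,
    C ((ap (θ i) (κ i) a).coeff j) * ∏ κ' ∈ (JCol n c).erase κ, (X - C (y κ')) with hN
  have hPT : P ∈ liftsRing (Tsub R K M).subtype :=
    Subring.prod_mem _ fun κ _ => sub_mem X_mem_lr (C_mem_lr (hyT κ))
  have hNT : ∀ i a j, N i a j ∈ liftsRing (Tsub R K M).subtype := fun i a j =>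
    Subring.sum_mem _ fun κ _ => Subring.mul_mem _ (C_mem_lr (coeff_mem_T (hap i (κ i) a) j))
      (Subring.prod_mem _ fun κ _ => sub_mem X_mem_lr (C_mem_lr (hyT κ)))
  -- the action
  have hact : ∀ τ : M ≃ₐ[K] M, ∃ ε : (∀ i, Fin (n i) → Fin (l i)) ≃ (∀ i, Fin (n i) → Fin (l i)),
      (∀ κ, ε κ ∈ JCol n c ↔ κ ∈ JCol n c) ∧
      (∀ κ i a j, τ ((ap (θ i) (κ i) a).coeff j) = (ap (θ i) (ε κ i) a).coeff j) ∧
      ∀ κ, τ (y κ) = y (ε κ) := by
    intro τ
    have hτ : ∀ r : R, τ (algebraMap R M r) = algebraMap R M r := by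
      intro r
      rw [IsScalarTower.algebraMap_apply R K M, τ.commutes]
    have hex : ∀ i, ∃ π : Equiv.Perm (Fin (n i)), ∀ j, (τ : M →+* M) (θ i j) = θ i (π j) := by
      intro i
      refine perm_of (τ : M →+* M) (hθ i) (hθ i) ?_
      rw [← hf, Polynomial.map_map]
      congr 1
      ext r
      exact hτ r
    choose π hπ using hex
    have h1 : ∀ (κ : ∀ i, Fin (n i) → Fin (l i)) i a j, τ ((ap (θ i) (κ i) a).coeff j) =
        (ap (θ i) (κ i ∘ (π i).symm) a : Polynomial M).coeff j := by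
      intro κ i a j
      rw [← ap_map (τ : M →+* M) (π i) (hπ i) a, coeff_map]
      rfl
    refine ⟨Equiv.piCongrRight fun i => Equiv.arrowCongr (π i) (Equiv.refl _), ?_, h1, ?_⟩
    · intro κ
      rw [mem_JCol, mem_JCol]
      exact forall_congr' fun i => act_mem (π i)
    intro κ
    rw [hy]
    simp only
    rw [map_sum]
    refine Finset.sum_congr rfl fun i _ => ?_
    rw [map_sum]
    refine Finset.sum_congr rfl fun a _ => ?_
    rw [map_sum]
    refine Finset.sum_congr rfl fun j _ => ?_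
    rw [map_mul, hτ, h1]
    rfl
  obtain ⟨H, hH⟩ := desc_poly P hPT (by
    intro τ
    obtain ⟨ε, hε1, hε2, hε3⟩ := hact τ
    rw [hP, Polynomial.map_prod]
    refine Finset.prod_equiv ε (fun κ => (hε1 κ).symm) fun κ _ => ?_
    rw [Polynomial.map_sub, map_X, map_C]
    show X - C (τ (y κ)) = _
    rw [hε3])
  have hex : ∀ i a j, ∃ G : R[X], G.map (algebraMap R M) = N i a j := by
    intro i a j
    refine desc_poly (N i a j) (hNT i a j) ?_
    intro τ
    obtain ⟨ε, hε1, hε2, hε3⟩ := hact τ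
    rw [hN]
    simp only
    rw [Polynomial.map_sum]
    refine Finset.sum_equiv ε (fun κ => (hε1 κ).symm) fun κ _ => ?_
    rw [Polynomial.map_mul, map_C, Polynomial.map_prod]
    congr 1
    · show C (τ _) = _
      rw [hε2]
    · refine Finset.prod_equiv ε (fun κ' => ?_) fun κ' _ => ?_
      · rw [Finset.mem_erase, Finset.mem_erase, hε1, ε.injective.ne_iff]
      · rw [Polynomial.map_sub, map_X, map_C]
        show X - C (τ (y κ')) = _
        rw [hε3]
  choose G hG using hex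
  have hHm : H.Monic := by
    apply monic_of_injective hR
    rw [hH]
    exact monic_prod_of_monic _ _ fun _ _ => monic_X_sub_C _
  have hHs : (H.map (algebraMap R K)).Separable := by
    rw [← Polynomial.separable_map (algebraMap K M), Polynomial.map_map,
      ← IsScalarTower.algebraMap_eq, hH, hP, separable_prod_X_sub_C_iff']
    exact he
  obtain ⟨A₀, B₀, hAB⟩ := hHs
  obtain ⟨D, hD, hcl⟩ := Run7.h875.TS.clear_den (R := R) {A₀, B₀}
  obtain ⟨A₁, hA₁⟩ := hcl A₀ (by simp)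
  obtain ⟨B₁, hB₁⟩ := hcl B₀ (by simp)
  have hid : A₁ * H + B₁ * derivative H = C D := by
    apply Polynomial.map_injective (algebraMap R K) hKR
    rw [Polynomial.map_add, Polynomial.map_mul, Polynomial.map_mul, hA₁, hB₁, map_C, ← derivative_map]
    linear_combination C (algebraMap R K D) * hAB
  have hder : ∀ κ ∈ JCol n c, aeval (y κ) (derivative H) =
      (∏ κ' ∈ (JCol n c).erase κ, (X - C (y κ')) : Polynomial M).eval (y κ) := by
    intro κ hκ
    rw [aeval_def, ← eval_map, ← derivative_map, hH, hP, ← Finset.mul_prod_erase _ _ hκ,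
      derivative_mul, eval_add, eval_mul, eval_mul]
    simp
  have hH0 : ∀ κ ∈ JCol n c, aeval (y κ) H = 0 := by
    intro κ hκ
    rw [aeval_def, ← eval_map, hH, hP, eval_prod]
    exact Finset.prod_eq_zero hκ (by simp)
  refine ⟨H, D * E, fun i a j => C E * B₁ * G i a j, e, y, hHm, mul_ne_zero hD hE,
    dvd_mul_left _ _, ⟨C E * A₁, C E * B₁, ?_⟩, he, hH, fun κ => rfl, ?_⟩
  · rw [C_mul]
    linear_combination C E * hid
  · intro κ hκ i a j
    have h1 : aeval (y κ) (G i a j) =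
        (ap (θ i) (κ i) a).coeff j * aeval (y κ) (derivative H) := by
      rw [hder κ hκ, aeval_def, ← eval_map, hG, hN]
      simp only
      rw [eval_finset_sum, Finset.sum_eq_single κ]
      · rw [eval_mul, eval_C]
      · intro κ' hκ' hne
        rw [eval_mul, eval_prod, Finset.prod_eq_zero (i := κ) (Finset.mem_erase.2 ⟨hne.symm, hκ⟩)
          (by simp), mul_zero]
      · intro h
        exact absurd hκ h
    have h2 := congrArg (aeval (y κ)) hid
    rw [map_add, map_mul, map_mul, hH0 κ hκ, mul_zero, zero_add, aeval_C] at h2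
    rw [map_mul, map_mul, aeval_C, h1, map_mul, ← h2]
    ring

end partA

end Run7.h56.JP
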